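import Pool.Agent.Helper15.SI.Defs

/-! Project SI, leaf P3: the trivial bound beyond the level. -/

namespace Pool.Agent.Helper15.SI

open Finset Filter Topology Pool.Agent.Helper10.SQ Pool.Agent.Helper10.P4

/-- the trivial bound for one class -/
lemma cl_trivial (j q a : ℕ) (_hq : 0 < q) : ((cl j q a : ℕ) : ℝ) ≤ 10 ^ (2 * j + 1) / q + 1 := by
  have h1 : cl j q a ≤ 10 ^ (2 * j + 1) / q + 1 := by
    unfold cl
    rw [← Finset.card_range (10 ^ (2 * j + 1) / q + 1)]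
    apply Finset.card_le_card_of_injOn (fun N => N / q)
    · intro N hN
      rw [Finset.mem_coe, Finset.mem_filter] at hN
      have hlt := lt_of_isPal _ _ ((mem_Pal j N).1 hN.1)
      rw [Finset.mem_coe, Finset.mem_range]
      exact Nat.lt_succ_of_le (Nat.div_le_div_right hlt.le)
    · intro N hN N' hN' heq
      rw [Finset.mem_coe, Finset.mem_filter] at hN hN'
      simp only at heq
      have h2 : N % q = N' % q := hN.2.trans hN'.2.symm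
      rw [← Nat.div_add_mod N q, ← Nat.div_add_mod N' q, heq, h2]
  have h2 : ((cl j q a : ℕ) : ℝ) ≤ ((10 ^ (2 * j + 1) / q + 1 : ℕ) : ℝ) := by exact_mod_cast h1
  refine h2.trans ?_
  push_cast
  have h3 := @Nat.cast_div_le ℝ _ _ _ (10 ^ (2 * j + 1)) q
  push_cast at h3
  linarith

/-- one term -/
lemma term_trivial (j d a : ℕ) (hd : 1 ≤ d) :
    |((cl j (d ^ 2) a : ℕ) : ℝ) - 9 * 10 ^ j / ((d : ℝ) ^ 2)| ≤
      20 * 10 ^ (2 * j) * ((d : ℝ) ^ 2)⁻¹ + 1 := by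
  have hd0 : (0 : ℝ) < (d : ℝ) ^ 2 := by
    have : (0 : ℝ) < d := by exact_mod_cast hd
    positivity
  have h1 := cl_trivial j (d ^ 2) a (by positivity)
  push_cast at h1
  have h2 : (0 : ℝ) ≤ ((cl j (d ^ 2) a : ℕ) : ℝ) := Nat.cast_nonneg _
  have h3 : (0 : ℝ) ≤ 9 * 10 ^ j / ((d : ℝ) ^ 2) := by positivity
  have h4 : (10 : ℝ) ^ j ≤ 10 ^ (2 * j) := pow_le_pow_right₀ (by norm_num) (by omega)
  have h5 : (9 : ℝ) * 10 ^ j / ((d : ℝ) ^ 2) ≤ 9 * 10 ^ (2 * j) * ((d : ℝ) ^ 2)⁻¹ := by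
    rw [div_eq_mul_inv]
    gcongr
  have h6 : (10 : ℝ) ^ (2 * j + 1) / (d : ℝ) ^ 2 = 10 * 10 ^ (2 * j) * ((d : ℝ) ^ 2)⁻¹ := by
    rw [pow_succ, div_eq_mul_inv]
    ring
  rw [h6] at h1
  have h7 : (0 : ℝ) ≤ 10 ^ (2 * j) * ((d : ℝ) ^ 2)⁻¹ := by positivity
  rw [abs_le]
  constructor
  · nlinarith
  · nlinarith

theorem crude (ε : ℝ) (hε : 0 < ε) (hε1 : ε ≤ 1) : ∃ C : ℝ, 0 < C ∧ ∀ (j D : ℕ) (a : ℕ → ℕ),
    EP j D a ≤ C * (10 : ℝ) ^ ((1 + ε) * (j : ℝ)) + D := by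
  obtain ⟨n0, hn0⟩ := sqB2 ε hε 0
  refine ⟨10 ^ n0 * (21 * 10 ^ (2 * n0)) + 42, by positivity, fun j D a => ?_⟩
  set X : ℝ := (10 : ℝ) ^ ((1 + ε) * (j : ℝ)) with hX
  have hX1 : 1 ≤ X := Real.one_le_rpow (by norm_num) (by positivity)
  have hjX : (10 : ℝ) ^ j ≤ X := by
    rw [hX, ← Real.rpow_natCast]
    apply Real.rpow_le_rpow_of_exponent_le (by norm_num)
    nlinarith [(Nat.cast_nonneg j : (0 : ℝ) ≤ (j : ℝ))]
  set Y : ℝ := (10 : ℝ) ^ ((1 - ε) * (j : ℝ)) with hY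
  have hY0 : 0 < Y := by positivity
  have hYX : (10 : ℝ) ^ (2 * j) = X * Y := by
    rw [hX, hY, ← Real.rpow_add (by norm_num), ← Real.rpow_natCast]
    congr 1
    push_cast
    ring
  set D0 : ℕ := ⌊Y⌋₊ with hD0
  have hD0Y : (D0 : ℝ) ≤ Y := Nat.floor_le hY0.le
  have hD0Y' : Y < D0 + 1 := Nat.lt_floor_add_one Y
  -- split the sum
  have hsplit : EP j D a ≤
      (∑ d ∈ Mo D0, |((cl j (d ^ 2) (a d) : ℕ) : ℝ) - 9 * 10 ^ j / ((d : ℝ) ^ 2)|) +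
      ∑ d ∈ Ioo D0 (D + 1), (20 * 10 ^ (2 * j) * ((d : ℝ) ^ 2)⁻¹ + 1) := by
    unfold EP
    have hsub : Mo D ⊆ Mo D0 ∪ Ioo D0 (D + 1) := by
      intro d hd
      unfold Mo at hd ⊢
      rw [Finset.mem_filter, Finset.mem_Icc] at hd
      rw [Finset.mem_union, Finset.mem_filter, Finset.mem_Icc, Finset.mem_Ioo]
      rcases le_or_gt d D0 with h | h
      · exact Or.inl ⟨⟨hd.1.1, h⟩, hd.2⟩
      · exact Or.inr ⟨h, by omega⟩
    refine (Finset.sum_le_sum_of_subset_of_nonneg hsub fun _ _ _ => abs_nonneg _).trans ?_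
    have hui := Finset.sum_union_inter (s₁ := Mo D0) (s₂ := Ioo D0 (D + 1))
      (f := fun d => |((cl j (d ^ 2) (a d) : ℕ) : ℝ) - 9 * 10 ^ j / ((d : ℝ) ^ 2)|)
    have hint : 0 ≤ ∑ d ∈ Mo D0 ∩ Ioo D0 (D + 1),
        |((cl j (d ^ 2) (a d) : ℕ) : ℝ) - 9 * 10 ^ j / ((d : ℝ) ^ 2)| :=
      Finset.sum_nonneg fun _ _ => abs_nonneg _
    have hle : ∑ d ∈ Ioo D0 (D + 1),
        |((cl j (d ^ 2) (a d) : ℕ) : ℝ) - 9 * 10 ^ j / ((d : ℝ) ^ 2)| ≤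
        ∑ d ∈ Ioo D0 (D + 1), (20 * 10 ^ (2 * j) * ((d : ℝ) ^ 2)⁻¹ + 1) := by
      refine Finset.sum_le_sum fun d hd => ?_
      rw [Finset.mem_Ioo] at hd
      exact term_trivial j d (a d) (by omega)
    linarith
  -- the second part
  have hsecond : ∑ d ∈ Ioo D0 (D + 1), (20 * 10 ^ (2 * j) * ((d : ℝ) ^ 2)⁻¹ + 1) ≤ 40 * X + D := by
    rw [Finset.sum_add_distrib, ← Finset.mul_sum, Finset.sum_const, nsmul_eq_mul, mul_one,
      Nat.card_Ioo]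
    have h1 := sum_Ioo_inv_sq_le (α := ℝ) D0 (D + 1)
    have h2 : (2 : ℝ) / (D0 + 1) ≤ 2 / Y := by
      gcongr
    have h3 : 20 * (10 : ℝ) ^ (2 * j) * ∑ d ∈ Ioo D0 (D + 1), ((d : ℝ) ^ 2)⁻¹ ≤
        20 * (10 : ℝ) ^ (2 * j) * (2 / Y) :=
      mul_le_mul_of_nonneg_left (h1.trans h2) (by positivity)
    have h4 : 20 * (10 : ℝ) ^ (2 * j) * (2 / Y) = 40 * X := by
      rw [hYX]
      field_simp
      ring
    have h5 : ((D + 1 - D0 - 1 : ℕ) : ℝ) ≤ D := by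
      exact_mod_cast (by omega : D + 1 - D0 - 1 ≤ D)
    linarith
  -- the first part
  have hfirst : (∑ d ∈ Mo D0, |((cl j (d ^ 2) (a d) : ℕ) : ℝ) - 9 * 10 ^ j / ((d : ℝ) ^ 2)|) ≤
      (10 ^ n0 * (21 * 10 ^ (2 * n0)) + 1) * X := by
    rcases le_or_gt n0 j with hj | hj
    · have h1 := hn0 j hj D0 hD0Y a
      rw [pow_zero, div_one] at h1
      unfold Mo
      refine h1.trans (hjX.trans ?_)
      have : (0 : ℝ) ≤ 10 ^ n0 * (21 * 10 ^ (2 * n0)) * X := by positivity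
      linarith
    · have h1 : ∀ d ∈ Mo D0, |((cl j (d ^ 2) (a d) : ℕ) : ℝ) - 9 * 10 ^ j / ((d : ℝ) ^ 2)| ≤
          21 * 10 ^ (2 * n0) := by
        intro d hd
        unfold Mo at hd
        rw [Finset.mem_filter, Finset.mem_Icc] at hd
        refine (term_trivial j d (a d) hd.1.1).trans ?_
        have h2 : ((d : ℝ) ^ 2)⁻¹ ≤ 1 := by
          have : (1 : ℝ) ≤ d := by exact_mod_cast hd.1.1
          exact inv_le_one_of_one_le₀ (one_le_pow₀ this)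
        have h3 : (10 : ℝ) ^ (2 * j) ≤ 10 ^ (2 * n0) := pow_le_pow_right₀ (by norm_num) (by omega)
        have h4 : (1 : ℝ) ≤ 10 ^ (2 * n0) := one_le_pow₀ (by norm_num)
        have h5 : 20 * (10 : ℝ) ^ (2 * j) * ((d : ℝ) ^ 2)⁻¹ ≤ 20 * 10 ^ (2 * n0) * 1 := by
          gcongr
        linarith
      have h6 : ((Mo D0).card : ℝ) ≤ 10 ^ n0 := by
        have h7 : ((Mo D0).card : ℝ) ≤ D0 := by
          have := Finset.card_filter_le (Icc 1 D0) (fun d : ℕ => d.Coprime 10)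
          rw [Nat.card_Icc, Nat.add_sub_cancel] at this
          unfold Mo
          exact_mod_cast this
        refine h7.trans (hD0Y.trans ?_)
        rw [hY, ← Real.rpow_natCast]
        apply Real.rpow_le_rpow_of_exponent_le (by norm_num)
        have h8 : (j : ℝ) ≤ n0 := by exact_mod_cast hj.le
        nlinarith [(Nat.cast_nonneg j : (0 : ℝ) ≤ (j : ℝ))]
      calc ∑ d ∈ Mo D0, |((cl j (d ^ 2) (a d) : ℕ) : ℝ) - 9 * 10 ^ j / ((d : ℝ) ^ 2)|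
          ≤ ∑ _d ∈ Mo D0, (21 * 10 ^ (2 * n0) : ℝ) := Finset.sum_le_sum h1
        _ = ((Mo D0).card : ℝ) * (21 * 10 ^ (2 * n0)) := by
            rw [Finset.sum_const, nsmul_eq_mul]
        _ ≤ 10 ^ n0 * (21 * 10 ^ (2 * n0)) := by gcongr
        _ ≤ (10 ^ n0 * (21 * 10 ^ (2 * n0)) + 1) * 1 := by linarith
        _ ≤ (10 ^ n0 * (21 * 10 ^ (2 * n0)) + 1) * X := by gcongr
  nlinarith [hsplit, hsecond, hfirst]

end Pool.Agent.Helper15.SI
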