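import Pool.Agent.Helper15.SI.Defs

/-! Project SI, leaf P1b: symmetric strings with a given prefix. -/

namespace Pool.Agent.Helper15.SI

/-- the inner part of `c (10^(l+1) + 1) + 10 M` -/
lemma p1b_div_ten (l c M : ℕ) (hc : c < 10) :
    (c * (10 ^ (l + 1) + 1) + 10 * M) / 10 = c * 10 ^ l + M := by
  rw [pow_succ]
  have h : c * (10 ^ l * 10 + 1) + 10 * M = c + 10 * (c * 10 ^ l + M) := by ring
  rw [h, Nat.add_mul_div_left _ _ (by norm_num), Nat.div_eq_of_lt hc, zero_add]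

lemma p1b_mod_ten (l c M : ℕ) (hc : c < 10) :
    (c * (10 ^ (l + 1) + 1) + 10 * M) % 10 = c := by
  rw [pow_succ]
  have h : c * (10 ^ l * 10 + 1) + 10 * M = c + 10 * (c * 10 ^ l + M) := by ring
  rw [h, Nat.add_mul_mod_self_left, Nat.mod_eq_of_lt hc]

lemma p1b_shift (l i c M : ℕ) (hi : i ≤ l) :
    (c * 10 ^ l + M) / 10 ^ i = c * 10 ^ (l - i) + M / 10 ^ i := by
  have h : c * 10 ^ l + M = M + 10 ^ i * (c * 10 ^ (l - i)) := by
    have : 10 ^ l = 10 ^ i * 10 ^ (l - i) := by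
      rw [← pow_add]
      congr 1
      omega
    rw [this]
    ring
  rw [h, Nat.add_mul_div_left _ _ (by positivity), add_comm]

lemma p1b_top (l c M : ℕ) (hc : c < 10) (hM : M < 10 ^ l) :
    (c * (10 ^ (l + 1) + 1) + 10 * M) / 10 ^ (l + 1) = c := by
  rw [pow_succ', ← Nat.div_div_eq_div_mul]
  have h := p1b_div_ten l c M hc
  rw [pow_succ'] at h
  rw [h, p1b_shift l l c M le_rfl, Nat.sub_self, pow_zero, mul_one, Nat.div_eq_of_lt hM, add_zero]

lemma p1b_digit (l i c M : ℕ) (hc : c < 10) (hi : i < l) :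
    (c * (10 ^ (l + 1) + 1) + 10 * M) / 10 ^ (i + 1) % 10 = M / 10 ^ i % 10 := by
  rw [pow_succ' 10 i, ← Nat.div_div_eq_div_mul, p1b_div_ten l c M hc, p1b_shift l i c M hi.le]
  obtain ⟨t, ht⟩ : ∃ t, l - i = t + 1 := ⟨l - i - 1, by omega⟩
  rw [ht, pow_succ]
  have h : c * (10 ^ t * 10) + M / 10 ^ i = M / 10 ^ i + 10 * (c * 10 ^ t) := by ring
  rw [h, Nat.add_mul_mod_self_left]

theorem sy_step (l c N : ℕ) (hc : c < 10) : (Sy (l + 2) N ∧ N / 10 ^ (l + 1) = c) ↔
    ∃ M, Sy l M ∧ N = c * (10 ^ (l + 1) + 1) + 10 * M := by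
  constructor
  · rintro ⟨⟨hN, hd⟩, hNc⟩
    have h0 := hd 0 (by omega)
    rw [pow_zero, Nat.div_one, show l + 2 - 1 - 0 = l + 1 by omega, hNc,
      Nat.mod_eq_of_lt hc] at h0
    -- `N = c * 10^(l+1) + R`, `R = c + 10 M`
    set R := N % 10 ^ (l + 1) with hR
    have hNR : N = 10 ^ (l + 1) * c + R := by
      have := Nat.div_add_mod N (10 ^ (l + 1))
      rw [hNc] at this
      exact this.symm
    have hRlt : R < 10 ^ (l + 1) := Nat.mod_lt _ (by positivity)
    have hR10 : R % 10 = c := by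
      rw [hNR, pow_succ'] at h0
      rw [show 10 * 10 ^ l * c + R = R + 10 * (10 ^ l * c) by ring,
        Nat.add_mul_mod_self_left] at h0
      exact h0
    have hRM : R = c + 10 * (R / 10) := by
      have := Nat.div_add_mod R 10
      omega
    have hNM : N = c * (10 ^ (l + 1) + 1) + 10 * (R / 10) := by
      rw [hNR]
      nth_rewrite 1 [hRM]
      ring
    refine ⟨R / 10, ⟨?_, ?_⟩, hNM⟩
    · rw [Nat.div_lt_iff_lt_mul (by norm_num)]
      rw [pow_succ] at hRlt
      exact hRlt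
    · intro i hi
      rw [← p1b_digit l i c (R / 10) hc hi, ← p1b_digit l (l - 1 - i) c (R / 10) hc (by omega),
        ← hNM, hd (i + 1) (by omega)]
      congr 3
      omega
  · rintro ⟨M, ⟨hM, hd⟩, rfl⟩
    refine ⟨⟨?_, ?_⟩, p1b_top l c M hc hM⟩
    · have e1 : 10 ^ (l + 2) = 100 * 10 ^ l := by ring
      have e2 : 10 ^ (l + 1) = 10 * 10 ^ l := by ring
      rw [e1, e2]
      have h3 : c * (10 * 10 ^ l + 1) ≤ 9 * (10 * 10 ^ l + 1) := Nat.mul_le_mul_right _ (by omega)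
      omega
    · intro i hi
      rcases Nat.eq_zero_or_pos i with rfl | hi0
      · rw [pow_zero, Nat.div_one, show l + 2 - 1 - 0 = l + 1 by omega, p1b_top l c M hc hM,
          p1b_mod_ten l c M hc, Nat.mod_eq_of_lt hc]
      · rcases Nat.lt_or_ge i (l + 1) with h | h
        · obtain ⟨j, rfl⟩ : ∃ j, i = j + 1 := ⟨i - 1, by omega⟩
          rw [p1b_digit l j c M hc (by omega), hd j (by omega),
            show l + 2 - 1 - (j + 1) = (l - 1 - j) + 1 by omega,
            p1b_digit l (l - 1 - j) c M hc (by omega)]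
        · have hil : i = l + 1 := by omega
          rw [hil, show l + 2 - 1 - (l + 1) = 0 by omega, pow_zero, Nat.div_one,
            p1b_top l c M hc hM, p1b_mod_ten l c M hc, Nat.mod_eq_of_lt hc]

theorem sy_prefix (l k w : ℕ) (hw : w < 10 ^ k) : ∃ W : ℕ, ∀ N : ℕ,
    (Sy (l + 2 * k) N ∧ N / 10 ^ (l + k) = w) ↔ ∃ M, Sy l M ∧ N = W + 10 ^ k * M := by
  induction k generalizing w with
  | zero =>
    have hw0 : w = 0 := by
      rw [pow_zero] at hw
      omega
    subst hw0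
    refine ⟨0, fun N => ?_⟩
    simp only [Nat.mul_zero, Nat.add_zero, pow_zero, one_mul, zero_add]
    constructor
    · rintro ⟨h, -⟩
      exact ⟨N, h, rfl⟩
    · rintro ⟨M, h, rfl⟩
      exact ⟨h, Nat.div_eq_of_lt h.1⟩
  | succ k ih =>
    set c := w / 10 ^ k with hcdef
    have hc : c < 10 := by
      rw [hcdef, Nat.div_lt_iff_lt_mul (by positivity)]
      rw [pow_succ'] at hw
      exact hw
    have hw' : w % 10 ^ k < 10 ^ k := Nat.mod_lt _ (by positivity)
    have hwc : w = c * 10 ^ k + w % 10 ^ k := by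
      have := Nat.div_add_mod w (10 ^ k)
      rw [← hcdef, mul_comm] at this
      exact this.symm
    obtain ⟨W', hW'⟩ := ih (w % 10 ^ k) hw'
    refine ⟨c * (10 ^ (l + 2 * k + 1) + 1) + 10 * W', fun N => ?_⟩
    have hstep := sy_step (l + 2 * k) c N hc
    -- the quotient of `c (10^(l'+1) + 1) + 10 N'`
    have hquot : ∀ N' : ℕ, (c * (10 ^ (l + 2 * k + 1) + 1) + 10 * N') / 10 ^ (l + (k + 1)) =
        c * 10 ^ k + N' / 10 ^ (l + k) := by
      intro N'
      rw [show l + (k + 1) = (l + k) + 1 by omega, pow_succ' 10 (l + k),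
        ← Nat.div_div_eq_div_mul, p1b_div_ten (l + 2 * k) c N' hc,
        p1b_shift (l + 2 * k) (l + k) c N' (by omega),
        show l + 2 * k - (l + k) = k by omega]
    constructor
    · rintro ⟨hSy, hNw⟩
      have h1 : N / 10 ^ (l + 2 * k + 1) = c := by
        rw [show l + 2 * k + 1 = (l + (k + 1)) + k by omega, pow_add,
          ← Nat.div_div_eq_div_mul, hNw]
      obtain ⟨N', hN', rfl⟩ := hstep.1 ⟨by
        rw [show l + 2 * k + 2 = l + 2 * (k + 1) by ring]
        exact hSy, h1⟩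
      rw [hquot N'] at hNw
      have h2 : N' / 10 ^ (l + k) = w % 10 ^ k := by omega
      obtain ⟨M, hM, hNM⟩ := (hW' N').1 ⟨hN', h2⟩
      refine ⟨M, hM, ?_⟩
      rw [hNM, pow_succ']
      ring
    · rintro ⟨M, hM, rfl⟩
      have h3 := (hW' (W' + 10 ^ k * M)).2 ⟨M, hM, rfl⟩
      have h4 : c * (10 ^ (l + 2 * k + 1) + 1) + 10 * W' + 10 ^ (k + 1) * M =
          c * (10 ^ (l + 2 * k + 1) + 1) + 10 * (W' + 10 ^ k * M) := by
        rw [pow_succ' 10 k]
        ring
      rw [h4, hquot, h3.2]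
      refine ⟨?_, hwc.symm⟩
      have h5 := (sy_step (l + 2 * k) c (c * (10 ^ (l + 2 * k + 1) + 1) +
        10 * (W' + 10 ^ k * M)) hc).2 ⟨_, h3.1, rfl⟩
      rw [show l + 2 * (k + 1) = l + 2 * k + 2 by ring]
      exact h5.1

end Pool.Agent.Helper15.SI
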